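import Pool.Agent.Y507.Un.Met

/-!
# Unions of two Euclidean spaces: improved energy estimates
-/

set_option autoImplicit false
set_option linter.unusedSectionVars false
set_option linter.style.haveILetI false

namespace Pool.Agent.Y507.Un

open Pool.Agent.W532.Union2
open scoped BigOperators
open Finset

universe u

variable {H : Type u} [NormedAddCommGroup H] [InnerProductSpace ℝ H]

/-- Efron–Stein with averaged differences. -/
lemma es' {Ω : Type} [Fintype Ω] [Nonempty Ω] {ρ : ℝ} : ∀ (b : ℕ) (h : (Fin b → Ω) → H),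
    (∀ ω i, (av fun t => av fun t' =>
      ‖h (Function.update ω i t) - h (Function.update ω i t')‖ ^ 2) ≤ ρ) →
    (av fun ω => av fun ω' => ‖h ω - h ω'‖ ^ 2) ≤ b * ρ
  | 0, h, _ => by
    have : (av fun ω => av fun ω' => ‖h ω - h ω'‖ ^ 2) = 0 := by
      have e : ∀ ω ω' : Fin 0 → Ω, ‖h ω - h ω'‖ ^ 2 = 0 := by
        intro ω ω'
        rw [Subsingleton.elim ω ω', sub_self, norm_zero]
        norm_num
      simp only [e]
      rw [av_const, av_const]
    rw [this]
    simp
  | b + 1, h, hh => by
    set g : Ω → (Fin b → Ω) → H := fun x y => h (Fin.cons x y) with hg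
    have e0 : ∀ F : (Fin (b + 1) → Ω) → ℝ, av F = av fun x => av fun y => F (Fin.cons x y) := by
      intro F
      have e := av_equiv (Fin.consEquiv fun _ : Fin (b + 1) => Ω) F
      rw [← e, av_prod]
      rfl
    have e1 : ∀ K : (Fin (b + 1) → Ω) → (Fin (b + 1) → Ω) → ℝ,
        (av fun ω => av fun ω' => K ω ω') =
        av fun x => av fun x' => av fun y => av fun y' => K (Fin.cons x y) (Fin.cons x' y') := by
      intro K
      have s1 : (fun ω => av fun ω' => K ω ω') =
          fun ω => av fun x' => av fun y' => K ω (Fin.cons x' y') := funext fun ω => e0 _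
      rw [s1, e0]
      congr 1
      funext x
      exact av_comm (fun y x' => av fun y' => K (Fin.cons x y) (Fin.cons x' y'))
    rw [e1 fun ω ω' => ‖h ω - h ω'‖ ^ 2]
    refine (es_two g).trans ?_
    have h1 : (av fun x => av fun x' => av fun y => ‖g x y - g x' y‖ ^ 2) ≤ ρ := by
      have s1 : (fun x => av fun x' => av fun y => ‖g x y - g x' y‖ ^ 2) =
          fun x => av fun y => av fun x' => ‖g x y - g x' y‖ ^ 2 := funext fun x => av_comm _
      rw [s1, av_comm]
      refine av_le fun y => ?_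
      have := hh (Fin.cons (Classical.arbitrary Ω) y) 0
      simp only [Fin.update_cons_zero] at this
      exact this
    have h2 : (av fun x => av fun y => av fun y' => ‖g x y - g x y'‖ ^ 2) ≤ b * ρ := by
      refine av_le fun x => ?_
      refine es' b (g x) fun ω i => ?_
      have := hh (Fin.cons x ω) i.succ
      simp only [← Fin.cons_update] at this
      exact this
    push_cast
    linarith

/-- Independent copies and the distance to a point. -/
lemma av_le_two {T : Type} [Fintype T] [Nonempty T] (X : T → H) (c : H) :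
    (av fun t => av fun t' => ‖X t - X t'‖ ^ 2) ≤ 2 * av fun t => ‖X t - c‖ ^ 2 := by
  have key : ∀ t t', ‖X t - X t'‖ ^ 2 = ‖X t - c‖ ^ 2 + ‖X t' - c‖ ^ 2 -
      2 * inner ℝ (X t - c) (X t' - c) := by
    intro t t'
    have : X t - X t' = (X t - c) - (X t' - c) := by abel
    rw [this, norm_sub_sq_real]
    ring
  have hin : (av fun t => av fun t' => inner ℝ (X t - c) (X t' - c)) =
      ‖(∑ t, (X t - c))‖ ^ 2 / ((Fintype.card T : ℝ) * Fintype.card T) := by
    unfold av
    rw [← Finset.sum_div, div_div]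
    congr 1
    rw [← real_inner_self_eq_norm_sq, sum_inner]
    refine Finset.sum_congr rfl fun t _ => ?_
    rw [inner_sum]
  have h0 : 0 ≤ av fun t => av fun t' => inner ℝ (X t - c) (X t' - c) := by
    rw [hin]
    positivity
  simp only [key]
  simp only [av_sub, av_add, av_mul_left, av_const]
  linarith

/-- value of the flip -/
def bit {M : ℕ} (t : Fin M × Bool) : ℝ := if t.2 = true then 1 else 0

lemma av_bit {M : ℕ} (hM : 0 < M) : av (fun t : Fin M × Bool => bit t) = 1 / 2 := by
  haveI : Nonempty (Fin M) := ⟨⟨0, hM⟩⟩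
  rw [av_prod]
  have : ∀ m : Fin M, (av fun s : Bool => bit (m, s)) = 1 / 2 := by
    intro m
    unfold av bit
    simp
  simp only [this, av_const]

variable {b M : ℕ}

lemma hd_resample (p : Fin b × Fin M → ZMod 2) (ω : Fin b → Fin M × Bool) (g : Fin b)
    (t t' : Fin M × Bool) :
    hd (p + noise (Function.update ω g t)) (p + noise (Function.update ω g t')) ≤
      bit t + bit t' := by
  classical
  unfold hd hammingDist
  set A : Finset (Fin b × Fin M) := if t.2 = true then {(g, t.1)} else ∅ with hA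
  set B : Finset (Fin b × Fin M) := if t'.2 = true then {(g, t'.1)} else ∅ with hB
  have h1 : (Finset.univ.filter fun i => (p + noise (Function.update ω g t)) i ≠
      (p + noise (Function.update ω g t')) i) ⊆ A ∪ B := by
    intro i hi
    rw [Finset.mem_filter] at hi
    by_contra hcon
    rw [Finset.mem_union] at hcon
    push Not at hcon
    apply hi.2
    have : noise (Function.update ω g t) i = noise (Function.update ω g t') i := by
      unfold noise
      by_cases hg : i.1 = g
      · rw [hg, Function.update_self, Function.update_self]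
        have c1 : ¬ (t.1 = i.2 ∧ t.2 = true) := by
          rintro ⟨h3, h4⟩
          apply hcon.1
          rw [hA, if_pos h4, Finset.mem_singleton]
          exact Prod.ext hg h3.symm
        have c2 : ¬ (t'.1 = i.2 ∧ t'.2 = true) := by
          rintro ⟨h3, h4⟩
          apply hcon.2
          rw [hB, if_pos h4, Finset.mem_singleton]
          exact Prod.ext hg h3.symm
        rw [if_neg c1, if_neg c2]
      · rw [Function.update_of_ne hg, Function.update_of_ne hg]
    simp [this]
  have h2 := (Finset.card_le_card h1).trans (Finset.card_union_le A B)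
  have hAc : (A.card : ℝ) = bit t := by
    rw [hA]
    unfold bit
    split_ifs <;> simp
  have hBc : (B.card : ℝ) = bit t' := by
    rw [hB]
    unfold bit
    split_ifs <;> simp
  rw [← hAc, ← hBc]
  exact_mod_cast h2

/-- One move: the first member is fixed at a net point. -/
lemma move' {R : (Fin b × Fin M → ZMod 2) → Fin b × Fin M → ZMod 2}
    {δ η Λ : ℝ} (hM : 0 < M) (hR : ∀ w, hd w (R w) ≤ δ) (hη : b + 2 * δ ≤ η) (hδ : 0 ≤ δ)
    (hΛ : 0 ≤ Λ) {β : ℝ → ℝ} (hβ : IsMT β) (hβ2 : ∀ v, 0 ≤ v → v ≤ 4 → β v ^ 2 ≤ v)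
    (hβδ : β δ ≤ √b / 300)
    (F : (Fin b × Fin M → ZMod 2) → H) (u : Fin b × Fin M → ZMod 2)
    (hF : ∀ y y', hd (R u) y ≤ η → hd (R u) y' ≤ η → ‖F y - F y'‖ ≤ Λ * β (hd y y')) :
    (av fun ω => av fun ω' => ‖F (R (u + noise ω)) - F (R (u + noise ω'))‖ ^ 2) ≤
      102 / 100 * b * Λ ^ 2 := by
  haveI : Nonempty (Fin M) := ⟨⟨0, hM⟩⟩
  haveI : Nonempty (Fin M × Bool) := ⟨(⟨0, hM⟩, true)⟩
  have hb : (0 : ℝ) ≤ b := Nat.cast_nonneg b
  have hsb := Real.sq_sqrt hb
  have c1 : ∀ ω : Fin b → Fin M × Bool, hd (R u) (u + noise ω) ≤ b + δ := by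
    intro ω
    have h1 := hd_tri (R u) u (u + noise ω)
    have h2 := hR u
    have h3 := hd_noise u ω
    rw [hd_comm] at h2
    linarith
  have c2 : ∀ ω : Fin b → Fin M × Bool, hd (R u) (R (u + noise ω)) ≤ b + 2 * δ := by
    intro ω
    have h1 := hd_tri (R u) (u + noise ω) (R (u + noise ω))
    have h2 := hR (u + noise ω)
    have h3 := c1 ω
    linarith
  have e1 : ∀ ω : Fin b → Fin M × Bool,
      ‖F (R (u + noise ω)) - F (u + noise ω)‖ ≤ Λ * (√b / 300) := by
    intro ω
    refine (hF _ _ ((c2 ω).trans hη) ((c1 ω).trans (by linarith))).trans ?_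
    refine mul_le_mul_of_nonneg_left ?_ hΛ
    rw [hd_comm]
    exact (hβ.mono _ _ (hR _)).trans hβδ
  have e2 : ∀ ω ω' : Fin b → Fin M × Bool,
      ‖F (R (u + noise ω)) - F (R (u + noise ω'))‖ ^ 2 ≤
        201 / 200 * ‖F (u + noise ω) - F (u + noise ω')‖ ^ 2 + 1 / 100 * Λ ^ 2 * b := by
    intro ω ω'
    have h1 := e1 ω
    have h2 := e1 ω'
    rw [norm_sub_rev] at h2
    have h3 : ‖F (R (u + noise ω)) - F (R (u + noise ω'))‖ ≤
        ‖F (u + noise ω) - F (u + noise ω')‖ + Λ * (√b / 150) := by
      have h4 := norm_sub_le_norm_sub_add_norm_sub (F (R (u + noise ω))) (F (u + noise ω))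
        (F (R (u + noise ω')))
      have h5 := norm_sub_le_norm_sub_add_norm_sub (F (u + noise ω)) (F (u + noise ω'))
        (F (R (u + noise ω')))
      linarith
    have h6 := norm_nonneg (F (R (u + noise ω)) - F (R (u + noise ω')))
    have h7 := pow_le_pow_left₀ h6 h3 2
    refine h7.trans ?_
    set x := ‖F (u + noise ω) - F (u + noise ω')‖ with hx
    set y := Λ * (√b / 150) with hy
    have h8 : y ^ 2 = Λ ^ 2 * b / 22500 := by
      rw [hy, mul_pow, div_pow, hsb]
      ring
    have h9 : (x + y) ^ 2 ≤ 201 / 200 * x ^ 2 + 201 * y ^ 2 := by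
      nlinarith [sq_nonneg (x - 200 * y)]
    rw [h8] at h9
    have h10 : 0 ≤ Λ ^ 2 * b := by positivity
    linarith
  have e3 : (av fun ω : Fin b → Fin M × Bool => av fun ω' : Fin b → Fin M × Bool =>
      ‖F (u + noise ω) - F (u + noise ω')‖ ^ 2) ≤ b * Λ ^ 2 := by
    refine es' b (fun ω => F (u + noise ω)) fun ω i => ?_
    have h1 : ∀ t t' : Fin M × Bool, ‖F (u + noise (Function.update ω i t)) -
        F (u + noise (Function.update ω i t'))‖ ^ 2 ≤ Λ ^ 2 * (bit t + bit t') := by
      intro t t'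
      have h2 := hF (u + noise (Function.update ω i t)) (u + noise (Function.update ω i t'))
        ((c1 _).trans (by linarith)) ((c1 _).trans (by linarith))
      have h3 := pow_le_pow_left₀ (norm_nonneg _) h2 2
      rw [mul_pow] at h3
      refine h3.trans (mul_le_mul_of_nonneg_left ?_ (sq_nonneg Λ))
      have h4 := hd_resample u ω i t t'
      have b1 : ∀ s : Fin M × Bool, bit s ≤ 1 := by
        intro s
        unfold bit
        split_ifs <;> norm_num
      have h5 := hd_nonneg (u + noise (Function.update ω i t)) (u + noise (Function.update ω i t'))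
      exact (hβ2 _ h5 (by linarith [b1 t, b1 t'])).trans h4
    have h2 : (av fun t => av fun t' => ‖F (u + noise (Function.update ω i t)) -
        F (u + noise (Function.update ω i t'))‖ ^ 2) ≤
        av fun t : Fin M × Bool => av fun t' : Fin M × Bool => Λ ^ 2 * (bit t + bit t') :=
      av_mono fun t => av_mono fun t' => h1 t t'
    refine h2.trans (le_of_eq ?_)
    simp only [av_mul_left, av_add, av_const, av_bit hM]
    ring
  calc (av fun ω => av fun ω' => ‖F (R (u + noise ω)) - F (R (u + noise ω'))‖ ^ 2)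
      ≤ av fun ω : Fin b → Fin M × Bool => av fun ω' : Fin b → Fin M × Bool =>
        (201 / 200 * ‖F (u + noise ω) - F (u + noise ω')‖ ^ 2 + 1 / 100 * Λ ^ 2 * b) :=
        av_mono fun ω => av_mono fun ω' => e2 ω ω'
    _ = 201 / 200 * (av fun ω : Fin b → Fin M × Bool => av fun ω' : Fin b → Fin M × Bool =>
        ‖F (u + noise ω) - F (u + noise ω')‖ ^ 2) + 1 / 100 * Λ ^ 2 * b := by
        simp only [av_add, av_mul_left, av_const]
    _ ≤ 102 / 100 * b * Λ ^ 2 := by
        have : 0 ≤ b * Λ ^ 2 := by positivity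
        nlinarith

/-- From a function on pairs to functions on points. -/
lemma choose' (hM : 0 < M)
    (g : (Fin b × Fin M → ZMod 2) → (Fin b × Fin M → ZMod 2) → H) {C : ℝ}
    (hA : ∀ u, (av fun ω => av fun ω' => ‖g u (u + noise ω) - g u (u + noise ω')‖ ^ 2) ≤ C)
    (hB : ∀ v, (av fun ω => av fun ω' => ‖g (v + noise ω) v - g (v + noise ω') v‖ ^ 2) ≤ C) :
    ∃ ω₀ : Fin b → Fin M × Bool, en (fun p => g p (p + noise ω₀)) noise2 ≤ 8 * C := by
  haveI : Nonempty (Fin M × Bool) := ⟨(⟨0, hM⟩, true)⟩
  obtain ⟨ω₀, h₀⟩ : ∃ ω₀ : Fin b → Fin M × Bool,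
      (av fun u => av fun ω => ‖g u (u + noise ω) - g u (u + noise ω₀)‖ ^ 2) ≤ C := by
    refine exists_le_of_av ?_
    rw [av_comm]
    refine av_le fun u => ?_
    rw [av_comm]
    exact hA u
  obtain ⟨ω₁, h₁⟩ : ∃ ω₁ : Fin b → Fin M × Bool,
      (av fun v => av fun ω => ‖g (v + noise ω) v - g (v + noise ω₁) v‖ ^ 2) ≤ C := by
    refine exists_le_of_av ?_
    rw [av_comm]
    refine av_le fun v => ?_
    rw [av_comm]
    exact hB v
  refine ⟨ω₀, ?_⟩
  set a : (Fin b × Fin M → ZMod 2) → H := fun p => g p (p + noise ω₀) with ha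
  set c : (Fin b × Fin M → ZMod 2) → H := fun q => g (q + noise ω₁) q with hc
  -- one step
  have s1 : (av fun p => av fun ω : Fin b → Fin M × Bool => ‖a p - c (p + noise ω)‖ ^ 2)
      ≤ 4 * C := by
    have t1 : (av fun p => av fun ω : Fin b → Fin M × Bool => ‖a p - c (p + noise ω)‖ ^ 2) ≤
        av fun p => av fun ω : Fin b → Fin M × Bool =>
          (2 * ‖g p (p + noise ω) - g p (p + noise ω₀)‖ ^ 2 +
          2 * ‖g p (p + noise ω) - c (p + noise ω)‖ ^ 2) := by
      refine av_mono fun p => av_mono fun ω => ?_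
      have := sq_le_two (a p) (g p (p + noise ω)) (c (p + noise ω))
      rwa [norm_sub_rev (a p) (g p (p + noise ω))] at this
    have t2 : (av fun p => av fun ω : Fin b → Fin M × Bool =>
        ‖g p (p + noise ω) - c (p + noise ω)‖ ^ 2) ≤ C := by
      refine le_trans (le_of_eq ?_) h₁
      rw [av_comm, av_comm (fun v ω => ‖g (v + noise ω) v - g (v + noise ω₁) v‖ ^ 2)]
      congr 1
      funext ω
      rw [← av_shift (noise ω) fun v => ‖g (v + noise ω) v - g (v + noise ω₁) v‖ ^ 2]
      congr 1
      funext p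
      rw [add_assoc p (noise ω) (noise ω), noise_add_self, add_zero]
    simp only [av_add, av_mul_left] at t1
    linarith
  -- the same, centred at the end point
  have s3 : (av fun p => av fun ω : Fin b → Fin M × Bool => ‖a (p + noise ω) - c p‖ ^ 2) =
      av fun p => av fun ω : Fin b → Fin M × Bool => ‖a p - c (p + noise ω)‖ ^ 2 := by
    rw [av_comm, av_comm (fun p ω => ‖a p - c (p + noise ω)‖ ^ 2)]
    congr 1
    funext ω
    rw [← av_shift (noise ω) fun p => ‖a p - c (p + noise ω)‖ ^ 2]
    congr 1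
    funext p
    rw [add_assoc p (noise ω) (noise ω), noise_add_self, add_zero]
  have s2 : en a noise2 = av fun p => av fun ω : Fin b → Fin M × Bool =>
      av fun ω' : Fin b → Fin M × Bool => ‖a (p + noise ω) - a (p + noise ω')‖ ^ 2 := by
    unfold en
    have r1 : ∀ p, (av fun t => ‖a p - a (p + noise2 t)‖ ^ 2) =
        av fun ω : Fin b → Fin M × Bool => av fun ω' : Fin b → Fin M × Bool =>
          ‖a p - a (p + (noise ω + noise ω'))‖ ^ 2 := by
      intro p
      rw [av_prod]
      rfl
    simp only [r1]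
    rw [av_comm, av_comm (fun p ω => av fun ω' : Fin b → Fin M × Bool =>
      ‖a (p + noise ω) - a (p + noise ω')‖ ^ 2)]
    congr 1
    funext ω
    rw [← av_shift (noise ω) fun p => av fun ω' : Fin b → Fin M × Bool =>
          ‖a p - a (p + (noise ω + noise ω'))‖ ^ 2]
    congr 1
    funext p
    congr 1
    funext ω'
    rw [show p + noise ω + (noise ω + noise ω') = p + noise ω' + (noise ω + noise ω) by abel,
      noise_add_self, add_zero]
  rw [s2]
  calc (av fun p => av fun ω : Fin b → Fin M × Bool =>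
      av fun ω' : Fin b → Fin M × Bool => ‖a (p + noise ω) - a (p + noise ω')‖ ^ 2)
      ≤ av fun p => 2 * av fun ω : Fin b → Fin M × Bool => ‖a (p + noise ω) - c p‖ ^ 2 :=
        av_mono fun p => av_le_two (fun ω : Fin b → Fin M × Bool => a (p + noise ω)) (c p)
    _ = 2 * av fun p => av fun ω : Fin b → Fin M × Bool => ‖a (p + noise ω) - c p‖ ^ 2 := by
        rw [av_mul_left]
    _ ≤ 8 * C := by
        rw [s3]
        linarith

/-- The walk: energy and displacement. -/
lemma walk' (b k : ℕ) :
    ∃ (T : Type) (_ : Fintype T) (_ : Nonempty T)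
      (ζ : T → Fin b × Fin (128 * 2 ^ (k + 1)) → ZMod 2),
      (∀ a : (Fin b × Fin (128 * 2 ^ (k + 1)) → ZMod 2) → H, en a ζ ≤ 2 ^ k * en a noise2) ∧
      ∀ p, (128 / 129 : ℝ) * (b * 2 ^ k) ≤ av fun t => hd p (p + ζ t) := by
  have hM : 0 < 128 * 2 ^ (k + 1) := by positivity
  haveI : Nonempty (Fin (128 * 2 ^ (k + 1)) × Bool) := ⟨(⟨0, hM⟩, true)⟩
  obtain ⟨T, i1, i2, ζ, h1, h2⟩ :=
    exists_walk (H := H) (noise2 (b := b) (M := 128 * 2 ^ (k + 1))) k
  refine ⟨T, i1, i2, ζ, h1, fun p => ?_⟩
  have e : (fun t => hd p (p + ζ t)) = fun t => ∑ i, (1 - sg (ζ t i)) / 2 := by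
    funext t
    exact hd_eq_sum _ _
  rw [e, av_sum]
  have h3 : ∀ i, (1 : ℝ) / 258 ≤ av fun t => (1 - sg (ζ t i)) / 2 := by
    intro i
    have e2 : (fun t => (1 - sg (ζ t i)) / 2) = fun t => (1 / 2 : ℝ) * (1 - sg (ζ t i)) := by
      funext t
      ring
    rw [e2, av_mul_left, av_sub, av_const, h2, av_sg_noise2 hM, ← pow_mul]
    have h4 : (1 - 1 / ((128 * 2 ^ (k + 1) : ℕ) : ℝ)) ^ (2 * 2 ^ k) ≤ 128 / 129 := by
      rw [show 2 * 2 ^ k = 2 ^ (k + 1) by ring]
      set n : ℕ := 2 ^ (k + 1) with hn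
      have hn0 : (0 : ℝ) < n := by
        rw [hn]
        positivity
      have hn1 : (1 : ℝ) ≤ n := by
        rw [hn]
        exact_mod_cast Nat.one_le_two_pow
      push_cast
      set t : ℝ := 1 / (128 * (n : ℝ)) with ht
      have ht0 : 0 < t := by positivity
      have ht1 : t ≤ 1 := by
        rw [ht, div_le_one (by positivity)]
        linarith
      have q1 : (1 - t) ^ n * (1 + t) ^ n ≤ 1 := by
        rw [← mul_pow]
        refine pow_le_one₀ ?_ ?_
        · exact mul_nonneg (by linarith) (by linarith)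
        · nlinarith
      have q2 : 1 + (n : ℝ) * t ≤ (1 + t) ^ n := one_add_mul_le_pow (by linarith) n
      have q3 : (n : ℝ) * t = 1 / 128 := by
        rw [ht]
        field_simp
      have q4 : 0 ≤ (1 - t) ^ n := pow_nonneg (by linarith) n
      rw [q3] at q2
      have q5 := mul_le_mul_of_nonneg_left q2 q4
      linarith
    linarith
  calc (128 / 129 : ℝ) * (b * 2 ^ k) = ∑ _i : Fin b × Fin (128 * 2 ^ (k + 1)), (1 : ℝ) / 258 := by
        rw [Finset.sum_const, Finset.card_univ, Fintype.card_prod, Fintype.card_fin,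
          Fintype.card_fin, nsmul_eq_mul]
        push_cast
        ring
    _ ≤ _ := Finset.sum_le_sum fun i _ => h3 i

end Pool.Agent.Y507.Un
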