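import Pool.Agent.Y507.Un.En

/-!
# Unions of two Euclidean spaces: the configuration
-/

set_option autoImplicit false
set_option linter.unusedSectionVars false
set_option linter.style.haveILetI false

namespace Pool.Agent.Y507.Un

open Pool.Agent.W532.Union2
open scoped BigOperators
open Finset

universe u

lemma hd_zero_one {I : Type} [Fintype I] [DecidableEq I] :
    hd (0 : I → ZMod 2) 1 = Fintype.card I := by
  unfold hd hammingDist
  rw [Finset.filter_true_of_mem, Finset.card_univ]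
  intro i _
  simp

/-- The lower bound for the space of pairs. -/
lemma lower_pairs' {K L δ η W : ℝ} (hK : 1 ≤ K) (hL : 1 ≤ L) {b k : ℕ} (hδ0 : 0 ≤ δ)
    (hWK : 4 * K ^ 2 ≤ W) (hWL : 4 * L ^ 2 ≤ W) (hηW : η ≤ W) (hδW : δ ≤ W)
    (hbK : 90000 * (K ^ 2 * δ) ≤ b) (hbL : 90000 * (L ^ 2 * δ) ≤ b) (hb1 : (1 : ℝ) ≤ b)
    (hη : η = b + 2 * δ)
    (hk : 100 * (2 * b + 2 * δ + W * (K * L) ^ 2) ≤ b * 2 ^ k)
    {N : Set (Fin b × Fin (128 * 2 ^ (k + 1)) → ZMod 2)}
    {R : (Fin b × Fin (128 * 2 ^ (k + 1)) → ZMod 2) → Fin b × Fin (128 * 2 ^ (k + 1)) → ZMod 2}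
    (hRN : ∀ w, R w ∈ N) (hR : ∀ w, hd w (R w) ≤ δ)
    {H : Type u} [NormedAddCommGroup H] [InnerProductSpace ℝ H]
    (f : Sp (Fin b × Fin (128 * 2 ^ (k + 1))) N η → H) {s D : ℝ} (hs : 0 < s)
    (hf : ∀ p q, s * √(tr L K W (hd p.x q.x) ^ 2 + tr K L W (hd p.y q.y) ^ 2) ≤ ‖f p - f q‖ ∧
      ‖f p - f q‖ ≤ s * D * √(tr L K W (hd p.x q.x) ^ 2 + tr K L W (hd p.y q.y) ^ 2)) :
    101 / 100 * K * (101 / 100 * L) ≤ 3 * D := by
  classical
  have hM : 0 < 128 * 2 ^ (k + 1) := by positivity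
  set α : ℝ → ℝ := tr L K W with hα
  set β : ℝ → ℝ := tr K L W with hβ
  have mα : IsMT α := tr_isMT hL hK hWL
  have mβ : IsMT β := tr_isMT hK hL hWK
  have hsb : ∀ K' : ℝ, 1 ≤ K' → 90000 * (K' ^ 2 * δ) ≤ b → K' * √δ ≤ √b / 300 := by
    intro K' h1 h2
    rw [le_div_iff₀ (by norm_num)]
    refine Real.le_sqrt_of_sq_le ?_
    rw [mul_pow, mul_pow, Real.sq_sqrt hδ0]
    linarith
  have hβδ : β δ ≤ √b / 300 := (tr_le_mid hK hL hWK hδ0 hδW).trans (hsb K hK hbK)
  have hαδ : α δ ≤ √b / 300 := (tr_le_mid hL hK hWL hδ0 hδW).trans (hsb L hL hbL)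
  -- the extended function
  set V : (Fin b × Fin (128 * 2 ^ (k + 1)) → ZMod 2) →
      (Fin b × Fin (128 * 2 ^ (k + 1)) → ZMod 2) → Prop :=
    fun x y => (x ∈ N ∨ y ∈ N) ∧ hd x y ≤ η with hV
  set F : (Fin b × Fin (128 * 2 ^ (k + 1)) → ZMod 2) →
      (Fin b × Fin (128 * 2 ^ (k + 1)) → ZMod 2) → H :=
    fun x y => if h : V x y then f ⟨x, y, h.1, h.2⟩ else 0 with hF
  have hFV : ∀ x y (h : V x y), F x y = f ⟨x, y, h.1, h.2⟩ := by
    intro x y h
    simp only [hF, dif_pos h]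
  have hVR : ∀ u v, hd u v ≤ b → V (R u) (R v) := by
    intro u v huv
    refine ⟨Or.inl (hRN u), ?_⟩
    have h1 := hd_tri (R u) u (R v)
    have h2 := hd_tri u v (R v)
    have h3 := hR u
    have h4 := hR v
    rw [hd_comm] at h3
    rw [hη]
    linarith
  have hD : 0 ≤ D := by
    have v0 := hVR 0 0 (by rw [hd_self]; linarith)
    have v1 := hVR 1 1 (by rw [hd_self]; linarith)
    have h1 := hf ⟨R 0, R 0, v0.1, v0.2⟩ ⟨R 1, R 1, v1.1, v1.2⟩
    simp only at h1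
    have h2 : 1 ≤ hd (R 0) (R 1) := by
      have h3 := hd_tri (0 : Fin b × Fin (128 * 2 ^ (k + 1)) → ZMod 2) (R 0) 1
      have h4 := hd_tri (R 0) (R 1) 1
      have h5 := hR 0
      have h6 := hR 1
      rw [hd_comm] at h6
      rw [hd_zero_one, Fintype.card_prod, Fintype.card_fin, Fintype.card_fin] at h3
      push_cast at h3
      have h7 : (0 : ℝ) ≤ b * 2 ^ k := by positivity
      have h8 : (b : ℝ) * (128 * 2 ^ (k + 1)) = 256 * (b * 2 ^ k) := by ring
      have h9 : 0 ≤ W * (K * L) ^ 2 := mul_nonneg (by nlinarith) (sq_nonneg _)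
      rw [h8] at h3
      linarith
    have h3 : 0 < α (hd (R 0) (R 1)) := mα.pos _ h2
    have h4 : 0 < √(α (hd (R 0) (R 1)) ^ 2 + β (hd (R 0) (R 1)) ^ 2) :=
      Real.sqrt_pos.mpr (by positivity)
    have h5 := h1.1.trans h1.2
    by_contra hneg
    push Not at hneg
    have h6 : s * D * √(α (hd (R 0) (R 1)) ^ 2 + β (hd (R 0) (R 1)) ^ 2) < 0 :=
      mul_neg_of_neg_of_pos (mul_neg_of_pos_of_neg hs hneg) h4
    have h7 : 0 < s * √(α (hd (R 0) (R 1)) ^ 2 + β (hd (R 0) (R 1)) ^ 2) := by positivity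
    linarith
  have hΛ : 0 ≤ s * D := mul_nonneg hs.le hD
  -- energies
  set g : (Fin b × Fin (128 * 2 ^ (k + 1)) → ZMod 2) →
      (Fin b × Fin (128 * 2 ^ (k + 1)) → ZMod 2) → H :=
    fun u v => F (R u) (R v) with hg
  have hA : ∀ u, (av fun ω => av fun ω' => ‖g u (u + noise ω) - g u (u + noise ω')‖ ^ 2) ≤
      102 / 100 * b * (s * D) ^ 2 := by
    intro u
    refine move' (δ := δ) (η := η) hM hR (by rw [hη]) hδ0 hΛ mβ
      (fun v h0 h4 => tr_small hK hL hWK h0 h4) hβδ (F (R u)) u ?_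
    intro y y' hy hy'
    have v1 : V (R u) y := ⟨Or.inl (hRN u), hy⟩
    have v2 : V (R u) y' := ⟨Or.inl (hRN u), hy'⟩
    rw [hFV _ _ v1, hFV _ _ v2]
    have h1 := (hf ⟨R u, y, v1.1, v1.2⟩ ⟨R u, y', v2.1, v2.2⟩).2
    simp only at h1
    rwa [hd_self, mα.zero, zero_pow two_ne_zero, zero_add,
      Real.sqrt_sq (mβ.nonneg (hd_nonneg _ _))] at h1
  have hB : ∀ v, (av fun ω => av fun ω' => ‖g (v + noise ω) v - g (v + noise ω') v‖ ^ 2) ≤
      102 / 100 * b * (s * D) ^ 2 := by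
    intro v
    refine move' (δ := δ) (η := η) hM hR (by rw [hη]) hδ0 hΛ mα
      (fun v h0 h4 => tr_small hL hK hWL h0 h4) hαδ (fun x => F x (R v)) v ?_
    intro y y' hy hy'
    have v1 : V y (R v) := ⟨Or.inr (hRN v), by rwa [hd_comm]⟩
    have v2 : V y' (R v) := ⟨Or.inr (hRN v), by rwa [hd_comm]⟩
    show ‖F y (R v) - F y' (R v)‖ ≤ _
    rw [hFV _ _ v1, hFV _ _ v2]
    have h1 := (hf ⟨y, R v, v1.1, v1.2⟩ ⟨y', R v, v2.1, v2.2⟩).2
    simp only at h1
    rwa [hd_self, mβ.zero, zero_pow two_ne_zero, add_zero,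
      Real.sqrt_sq (mα.nonneg (hd_nonneg _ _))] at h1
  obtain ⟨ω₀, hω⟩ := choose' hM g hA hB
  obtain ⟨T, _, _, ζ, hζ, hdisp⟩ := walk' (H := H) b k
  have hup := (hζ (fun p => g p (p + noise ω₀))).trans
    (mul_le_mul_of_nonneg_left hω (by positivity))
  set Z : ℝ := 2 * b + 2 * δ + W * (K * L) ^ 2 with hZ
  have hW0 : 0 ≤ W := by nlinarith
  -- the lower bound
  have hpt : ∀ p q : Fin b × Fin (128 * 2 ^ (k + 1)) → ZMod 2,
      s ^ 2 * (K * L) ^ 2 * (hd p q - Z) ≤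
      ‖g p (p + noise ω₀) - g q (q + noise ω₀)‖ ^ 2 := by
    intro p q
    have v1 := hVR p (p + noise ω₀) (hd_noise _ _)
    have v2 := hVR q (q + noise ω₀) (hd_noise _ _)
    have h1 := (hf ⟨_, _, v1.1, v1.2⟩ ⟨_, _, v2.1, v2.2⟩).1
    rw [← hFV _ _ v1, ← hFV _ _ v2] at h1
    simp only at h1
    have h2 : hd p q - 2 * δ ≤ hd (R p) (R q) := by
      have h3 := hd_tri p (R p) q
      have h4 := hd_tri (R p) (R q) q
      have h5 := hR p
      have h6 := hR q
      rw [hd_comm] at h6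
      linarith
    have h2' : hd p q - 2 * b - 2 * δ ≤ hd (R (p + noise ω₀)) (R (q + noise ω₀)) := by
      have h3 := hd_tri (p + noise ω₀) (R (p + noise ω₀)) (q + noise ω₀)
      have h4 := hd_tri (R (p + noise ω₀)) (R (q + noise ω₀)) (q + noise ω₀)
      have h5 := hR (p + noise ω₀)
      have h6 := hR (q + noise ω₀)
      have h7 := hd_tri p (p + noise ω₀) q
      have h8 := hd_tri (p + noise ω₀) (q + noise ω₀) q
      have h9 := hd_noise p ω₀
      have h10 := hd_noise q ω₀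
      rw [hd_comm] at h6
      rw [hd_comm q] at h10
      linarith
    set w := hd (R p) (R q) with hw
    set w' := hd (R (p + noise ω₀)) (R (q + noise ω₀)) with hw'
    rcases le_total (hd p q) Z with h | h
    · have h7 : hd p q - Z ≤ 0 := by linarith
      have h8 : 0 ≤ s ^ 2 * (K * L) ^ 2 := by positivity
      exact (mul_nonpos_of_nonneg_of_nonpos h8 h7).trans (sq_nonneg _)
    · have hWKL : 0 ≤ W * (K * L) ^ 2 := mul_nonneg hW0 (sq_nonneg _)
      have k2 : 1 ≤ K ^ 2 := by nlinarith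
      have l2 : 1 ≤ L ^ 2 := by nlinarith
      have hwl : W * K ^ 2 ≤ w := by
        have : W * K ^ 2 ≤ W * (K * L) ^ 2 := by
          refine mul_le_mul_of_nonneg_left ?_ hW0
          nlinarith
        have hb0 : (0 : ℝ) ≤ b := by linarith
        linarith
      have hwl' : W * L ^ 2 ≤ w' := by
        have : W * L ^ 2 ≤ W * (K * L) ^ 2 := by
          refine mul_le_mul_of_nonneg_left ?_ hW0
          nlinarith
        linarith
      have a1 : gg L K ^ 2 * w ≤ α w ^ 2 := tr_large hL hK hWL hwl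
      have a2 : gg K L ^ 2 * w' ≤ β w' ^ 2 := tr_large hK hL hWK hwl'
      have c1 : gg L K ^ 2 * (hd p q - Z) ≤ gg L K ^ 2 * w := by
        refine mul_le_mul_of_nonneg_left ?_ (sq_nonneg _)
        have hb0 : (0 : ℝ) ≤ b := by linarith
        linarith
      have c2 : gg K L ^ 2 * (hd p q - Z) ≤ gg K L ^ 2 * w' := by
        refine mul_le_mul_of_nonneg_left ?_ (sq_nonneg _)
        linarith
      have hsum : (K * L) ^ 2 ≤ gg L K ^ 2 + gg K L ^ 2 := by
        rw [gg_sq hK hL, gg_sq hL hK]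
        nlinarith
      have h8 : (K * L) ^ 2 * (hd p q - Z) ≤ α w ^ 2 + β w' ^ 2 := by
        have := mul_le_mul_of_nonneg_right hsum (show 0 ≤ hd p q - Z by linarith)
        linarith
      have h9 := pow_le_pow_left₀ (by positivity) h1 2
      refine le_trans ?_ h9
      have e9 : (s * √(α w ^ 2 + β w' ^ 2)) ^ 2 = s ^ 2 * (α w ^ 2 + β w' ^ 2) := by
        rw [mul_pow s, Real.sq_sqrt (by positivity)]
      rw [e9, mul_assoc]
      exact mul_le_mul_of_nonneg_left h8 (sq_nonneg s)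
  have hlow : s ^ 2 * (K * L) ^ 2 * (128 / 129 * (b * 2 ^ k) - Z) ≤
      en (fun p => g p (p + noise ω₀)) ζ := by
    unfold en
    have h1 : (av fun p => av fun t => s ^ 2 * (K * L) ^ 2 * (hd p (p + ζ t) - Z)) ≤
        av fun p => av fun t => ‖g p (p + noise ω₀) - g (p + ζ t) (p + ζ t + noise ω₀)‖ ^ 2 :=
      av_mono fun p => av_mono fun t => hpt p (p + ζ t)
    refine le_trans ?_ h1
    have h2 : ∀ p : Fin b × Fin (128 * 2 ^ (k + 1)) → ZMod 2, s ^ 2 * (K * L) ^ 2 *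
        (128 / 129 * (b * 2 ^ k) - Z) ≤
        av fun t => s ^ 2 * (K * L) ^ 2 * (hd p (p + ζ t) - Z) := by
      intro p
      rw [av_mul_left, av_sub, av_const]
      refine mul_le_mul_of_nonneg_left ?_ (by positivity)
      have := hdisp p
      linarith
    have h3 := av_mono h2
    rwa [av_const] at h3
  have hfin := hlow.trans hup
  have h2 : s ^ 2 * (K * L) ^ 2 * (982 / 1000 * (b * 2 ^ k)) ≤
      s ^ 2 * (K * L) ^ 2 * (128 / 129 * (b * 2 ^ k) - Z) := by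
    refine mul_le_mul_of_nonneg_left ?_ (by positivity)
    have h7 : (0 : ℝ) ≤ b * 2 ^ k := by positivity
    linarith
  have h3 := h2.trans hfin
  set P : ℝ := s ^ 2 * b * 2 ^ k with hP
  have hP0 : 0 < P := by positivity
  have h5 : P * (982 / 1000 * (K * L) ^ 2) ≤ P * (816 / 100 * D ^ 2) := by
    have e1 : P * (982 / 1000 * (K * L) ^ 2) =
        s ^ 2 * (K * L) ^ 2 * (982 / 1000 * (b * 2 ^ k)) := by
      rw [hP]
      ring
    have e2 : P * (816 / 100 * D ^ 2) = 2 ^ k * (8 * (102 / 100 * b * (s * D) ^ 2)) := by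
      rw [hP]
      ring
    rw [e1, e2]
    exact h3
  have h6 := le_of_mul_le_mul_left h5 hP0
  refine le_of_sq_le_sq ?_ (by positivity)
  nlinarith [sq_nonneg D]

/-- For `K, L ≥ 1` there is a finite metric space which is a union of a set of Euclidean
distortion at most `1.01 K` and a set of Euclidean distortion at most `1.01 L` such that every map
into an inner product space has distortion at least `1.01 K · 1.01 L / 3`. -/
theorem config' (K L : ℝ) (hK : 1 ≤ K) (hL : 1 ≤ L) :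
    ∃ (X : Type) (_ : MetricSpace X) (_ : Finite X) (A B : Set X), A ∪ B = Set.univ ∧
      (∃ (n : ℕ) (f : X → EuclideanSpace ℝ (Fin n)), ∀ x ∈ A, ∀ y ∈ A,
        dist x y ≤ 101 / 100 * ‖f x - f y‖ ∧ ‖f x - f y‖ ≤ K * dist x y) ∧
      (∃ (n : ℕ) (f : X → EuclideanSpace ℝ (Fin n)), ∀ x ∈ B, ∀ y ∈ B,
        dist x y ≤ 101 / 100 * ‖f x - f y‖ ∧ ‖f x - f y‖ ≤ L * dist x y) ∧
      ∀ (H : Type u) (_ : NormedAddCommGroup H) (_ : InnerProductSpace ℝ H) (f : X → H)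
        (s D : ℝ), 0 < s → (∀ x y, s * dist x y ≤ ‖f x - f y‖ ∧ ‖f x - f y‖ ≤ s * D * dist x y) →
        101 / 100 * K * (101 / 100 * L) ≤ 3 * D := by
  classical
  set m : ℝ := max K L with hm
  have hKm : K ≤ m := le_max_left _ _
  have hLm : L ≤ m := le_max_right _ _
  have hm1 : 1 ≤ m := hK.trans hKm
  have hK2 : K ^ 2 ≤ m ^ 2 := pow_le_pow_left₀ (by linarith) hKm 2
  have hL2 : L ^ 2 ≤ m ^ 2 := pow_le_pow_left₀ (by linarith) hLm 2
  have hm2 : 1 ≤ m ^ 2 := by nlinarith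
  set δ : ℝ := 4 * m ^ 2 with hδ
  have hδ0 : 0 ≤ δ := by positivity
  have hδK : 4 * K ^ 2 ≤ δ := by linarith
  have hδL : 4 * L ^ 2 ≤ δ := by linarith
  set b : ℕ := ⌈90000 * (m ^ 2 * δ)⌉₊ with hb
  have hbm : 90000 * (m ^ 2 * δ) ≤ b := Nat.le_ceil _
  have hbK : 90000 * (K ^ 2 * δ) ≤ b :=
    (mul_le_mul_of_nonneg_left (mul_le_mul_of_nonneg_right hK2 hδ0) (by norm_num)).trans hbm
  have hbL : 90000 * (L ^ 2 * δ) ≤ b :=
    (mul_le_mul_of_nonneg_left (mul_le_mul_of_nonneg_right hL2 hδ0) (by norm_num)).trans hbm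
  have hδ4 : 4 ≤ δ := by linarith
  have hb1 : (1 : ℝ) ≤ b := by nlinarith
  have hb0 : (0 : ℝ) ≤ b := by linarith
  set η : ℝ := b + 2 * δ with hη
  set W : ℝ := 202 * η with hW
  have hηW : η ≤ W := by linarith
  have hδW : δ ≤ W := by linarith
  have hWK : 4 * K ^ 2 ≤ W := by linarith
  have hWL : 4 * L ^ 2 ≤ W := by linarith
  obtain ⟨k, hk⟩ : ∃ k : ℕ, 100 * (2 * b + 2 * δ + W * (K * L) ^ 2) ≤ b * (2 : ℝ) ^ k := by
    obtain ⟨k, hk⟩ := pow_unbounded_of_one_lt (100 * (2 * b + 2 * δ + W * (K * L) ^ 2))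
      (one_lt_two : (1 : ℝ) < 2)
    refine ⟨k, hk.le.trans ?_⟩
    have h2 : (0 : ℝ) ≤ 2 ^ k := by positivity
    nlinarith
  obtain ⟨N, R, hN, hRN, hR⟩ :=
    exists_net (I := Fin b × Fin (128 * 2 ^ (k + 1))) (δ := δ) (by linarith)
  have mα : IsMT (tr L K W) := tr_isMT hL hK hWL
  have mβ : IsMT (tr K L W) := tr_isMT hK hL hWK
  have hsep : ∀ x ∈ N, ∀ y ∈ N, hd x y = 0 ∨ δ ≤ hd x y := by
    intro x hx y hy
    by_cases hxy : x = y
    · left
      rw [hxy, hd_self]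
    · right
      exact hN x hx y hy hxy
  have hcl : ∀ p q : Sp (Fin b × Fin (128 * 2 ^ (k + 1))) N η,
      hd p.y q.y ≤ hd p.x q.x + 2 * η ∧ hd p.x q.x ≤ hd p.y q.y + 2 * η := by
    intro p q
    have h1 := p.close
    have h2 := q.close
    have h3 := hd_tri p.y p.x q.y
    have h4 := hd_tri p.x q.x q.y
    have h5 := hd_tri p.x p.y q.x
    have h6 := hd_tri p.y q.y q.x
    rw [hd_comm p.y p.x] at h3
    rw [hd_comm q.y q.x] at h6
    exact ⟨by linarith, by linarith⟩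
  let e := LinearIsometryEquiv.piLpCongrLeft 2 ℝ ℝ
    (Fintype.equivFin ((Fin b × Fin (128 * 2 ^ (k + 1))) ⊕ (Fin b × Fin (128 * 2 ^ (k + 1)))))
  refine ⟨Sp (Fin b × Fin (128 * 2 ^ (k + 1))) N η, m2 mα mβ, inferInstance, {p | p.x ∈ N},
    {p | p.y ∈ N}, ?_, ?_, ?_, ?_⟩
  · ext p
    simp only [Set.mem_union, Set.mem_ofPred_eq, Set.mem_univ, iff_true]
    exact p.mem
  · refine ⟨_, fun p => e (emb (K * L) K p), fun p hp q hq => ?_⟩
    have hE : ‖e (emb (K * L) K p) - e (emb (K * L) K q)‖ = ‖emb (K * L) K p - emb (K * L) K q‖ := by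
      rw [← map_sub, LinearIsometryEquiv.norm_map]
    rw [hE]
    have hs := hsep _ hp _ hq
    have h := piece (K := K) (L := L) (η := η) (u := hd p.x q.x) (v := hd p.y q.y) (W := W)
      hK hL hW hWK hWL (by
        rcases hs with h | h
        · exact Or.inl h
        · exact Or.inr (hδL.trans h)) (hd_nonneg _ _) (hd_nonneg _ _) (hcl p q).1
      (norm_nonneg (emb (K * L) K p - emb (K * L) K q)) (norm_emb _ _ _ _)
    exact ⟨h.2, h.1⟩
  · refine ⟨_, fun p => e (emb L (L * K) p), fun p hp q hq => ?_⟩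
    have hE : ‖e (emb L (L * K) p) - e (emb L (L * K) q)‖ = ‖emb L (L * K) p - emb L (L * K) q‖ := by
      rw [← map_sub, LinearIsometryEquiv.norm_map]
    rw [hE]
    have hs := hsep _ hp _ hq
    have h := piece (K := L) (L := K) (η := η) (u := hd p.y q.y) (v := hd p.x q.x) (W := W)
      hL hK hW hWL hWK (by
        rcases hs with h | h
        · exact Or.inl h
        · exact Or.inr (hδK.trans h)) (hd_nonneg _ _) (hd_nonneg _ _) (hcl p q).2
      (norm_nonneg (emb L (L * K) p - emb L (L * K) q)) (by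
        rw [norm_emb]
        ring)
    have ed : (m2 mα mβ).dist p q = √(tr L K W (hd p.x q.x) ^ 2 + tr K L W (hd p.y q.y) ^ 2) := rfl
    rw [ed, add_comm]
    exact ⟨h.2, h.1⟩
  · intro H _ _ f s D hs hf
    exact lower_pairs' hK hL hδ0 hWK hWL hηW hδW hbK hbL hb1 hη hk hRN hR f hs hf

end Pool.Agent.Y507.Un
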