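import Pool.Agent.W532.Union2.Energy

/-!
# Unions of two Euclidean spaces: improved metric transforms
-/

set_option autoImplicit false
set_option linter.unusedSectionVars false
set_option linter.style.haveILetI false

namespace Pool.Agent.Y507.Un

open Pool.Agent.W532.Union2

/-- The transform: slopes `1`, then `K`, then `G` in front of `√u`. -/
noncomputable def ph (K G κ u : ℝ) : ℝ := max (√u) (max (psi (1 / 2) K u) (psi κ G u))

lemma ph_isMT {K G κ : ℝ} (hK : 0 ≤ K) (hG : 0 ≤ G) (hκ : 0 ≤ κ) : IsMT (ph K G κ) where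
  zero := by simp [ph, psi_zero]
  pos u hu := lt_of_lt_of_le (Real.sqrt_pos.mpr (by linarith)) (le_max_left _ _)
  mono u v huv := max_le_max (Real.sqrt_le_sqrt huv)
    (max_le_max (psi_mono (by norm_num) hK huv) (psi_mono hκ hG huv))
  sub u v hu hv := by
    have h1 := sqrt_add_le' hu hv
    have h2 := psi_sub (c := 1 / 2) (s := K) (by norm_num) hK hu hv
    have h3 := psi_sub (c := κ) (s := G) hκ hG hu hv
    have a1 : √u ≤ ph K G κ u := le_max_left _ _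
    have a2 : psi (1 / 2) K u ≤ ph K G κ u := (le_max_left _ _).trans (le_max_right _ _)
    have a3 : psi κ G u ≤ ph K G κ u := (le_max_right _ _).trans (le_max_right _ _)
    have b1 : √v ≤ ph K G κ v := le_max_left _ _
    have b2 : psi (1 / 2) K v ≤ ph K G κ v := (le_max_left _ _).trans (le_max_right _ _)
    have b3 : psi κ G v ≤ ph K G κ v := (le_max_right _ _).trans (le_max_right _ _)
    refine max_le (by linarith) (max_le (by linarith) (by linarith))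

/-- the large slope -/
noncomputable def gg (K L : ℝ) : ℝ := √(K ^ 2 + (K ^ 2 - 1) * (L ^ 2 - 1) / 2)

/-- the transform used -/
noncomputable def tr (K L W u : ℝ) : ℝ := ph K (gg K L) (K / √W) u

section Tr

variable {K L W : ℝ} (hK : 1 ≤ K) (hL : 1 ≤ L) (hW : 4 * K ^ 2 ≤ W)

include hK hL

lemma gg_sq : gg K L ^ 2 = K ^ 2 + (K ^ 2 - 1) * (L ^ 2 - 1) / 2 := by
  unfold gg
  refine Real.sq_sqrt ?_
  have h1 : 0 ≤ K ^ 2 - 1 := by nlinarith
  have h2 : 0 ≤ L ^ 2 - 1 := by nlinarith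
  have := mul_nonneg h1 h2
  nlinarith [sq_nonneg K]

lemma gg_nonneg : 0 ≤ gg K L := Real.sqrt_nonneg _

lemma le_gg : K ≤ gg K L := by
  refine Real.le_sqrt_of_sq_le ?_
  have h1 : 0 ≤ K ^ 2 - 1 := by nlinarith
  have h2 : 0 ≤ L ^ 2 - 1 := by nlinarith
  have := mul_nonneg h1 h2
  linarith

lemma gg_sq_le : gg K L ^ 2 ≤ K ^ 2 * L ^ 2 := by
  rw [gg_sq hK hL]
  have h1 : 0 ≤ K ^ 2 - 1 := by nlinarith
  have h2 : 0 ≤ L ^ 2 - 1 := by nlinarith
  have := mul_nonneg h1 h2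
  nlinarith

include hW

lemma W_pos : 0 < W := by nlinarith

lemma tr_isMT : IsMT (tr K L W) := by
  refine ph_isMT (by linarith) (gg_nonneg hK hL) ?_
  positivity

lemma kap_sq : (K / √W) ^ 2 = K ^ 2 / W := by
  rw [div_pow, Real.sq_sqrt (W_pos hK hL hW).le]

lemma kap_nonneg : 0 ≤ K / √W := by positivity

lemma tr_sqrt {u : ℝ} (hu : 0 ≤ u) : u ≤ tr K L W u ^ 2 := by
  have h1 : √u ≤ tr K L W u := le_max_left _ _
  have h2 := pow_le_pow_left₀ (Real.sqrt_nonneg u) h1 2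
  rwa [Real.sq_sqrt hu] at h2

lemma tr_mid {u : ℝ} (hu : 4 * K ^ 2 ≤ u) : K ^ 2 * u ≤ tr K L W u ^ 2 := by
  have hu0 : 0 ≤ u := by nlinarith
  have h0 : 2 * K ≤ √u := Real.le_sqrt_of_sq_le (by nlinarith)
  have h1 : K * √u ≤ tr K L W u := by
    refine le_trans ?_ ((le_max_left _ _).trans (le_max_right _ _))
    refine le_min ?_ le_rfl
    have := Real.mul_self_sqrt hu0
    nlinarith [Real.sqrt_nonneg u]
  have h2 := pow_le_pow_left₀ (by positivity) h1 2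
  rwa [mul_pow, Real.sq_sqrt hu0] at h2

lemma tr_large {u : ℝ} (hu : W * L ^ 2 ≤ u) : gg K L ^ 2 * u ≤ tr K L W u ^ 2 := by
  have hW0 := W_pos hK hL hW
  have hu0 : 0 ≤ u := le_trans (by positivity) hu
  have hg := gg_nonneg hK hL
  have hk := kap_nonneg hK hL hW
  have h0 : gg K L ≤ K / √W * √u := by
    refine le_of_sq_le_sq ?_ (by positivity)
    rw [mul_pow, kap_sq hK hL hW, Real.sq_sqrt hu0]
    refine (gg_sq_le hK hL).trans ?_
    rw [div_mul_eq_mul_div, le_div_iff₀ hW0]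
    nlinarith [sq_nonneg K]
  have h1 : gg K L * √u ≤ tr K L W u := by
    refine le_trans ?_ ((le_max_right _ _).trans (le_max_right _ _))
    refine le_min ?_ le_rfl
    have h2 := Real.mul_self_sqrt hu0
    calc gg K L * √u ≤ K / √W * √u * √u := mul_le_mul_of_nonneg_right h0 (Real.sqrt_nonneg u)
      _ = K / √W * u := by rw [mul_assoc, h2]
  have h2 := pow_le_pow_left₀ (by positivity) h1 2
  rwa [mul_pow, Real.sq_sqrt hu0] at h2

lemma tr_le_mid {u : ℝ} (hu0 : 0 ≤ u) (hu : u ≤ W) : tr K L W u ≤ K * √u := by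
  have hW0 := W_pos hK hL hW
  have hs := Real.sqrt_nonneg u
  refine max_le (by nlinarith) (max_le (min_le_right _ _) ((min_le_left _ _).trans ?_))
  have h0 : K / √W * √u ≤ K := by
    rw [div_mul_eq_mul_div, div_le_iff₀ (Real.sqrt_pos.mpr hW0)]
    exact mul_le_mul_of_nonneg_left (Real.sqrt_le_sqrt hu) (by linarith)
  have h2 := Real.mul_self_sqrt hu0
  calc K / √W * u = K / √W * √u * √u := by rw [mul_assoc, h2]
    _ ≤ K * √u := mul_le_mul_of_nonneg_right h0 hs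

lemma tr_le_mid_sq {u : ℝ} (hu0 : 0 ≤ u) (hu : u ≤ W) : tr K L W u ^ 2 ≤ K ^ 2 * u := by
  have h1 := pow_le_pow_left₀ ((tr_isMT hK hL hW).nonneg hu0) (tr_le_mid hK hL hW hu0 hu) 2
  rwa [mul_pow, Real.sq_sqrt hu0] at h1

lemma tr_le {u : ℝ} (hu0 : 0 ≤ u) : tr K L W u ^ 2 ≤ gg K L ^ 2 * u := by
  have hs := Real.sqrt_nonneg u
  have hg := le_gg hK hL
  have h0 : tr K L W u ≤ gg K L * √u := by
    refine max_le (by nlinarith) (max_le ((min_le_right _ _).trans ?_) (min_le_right _ _))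
    exact mul_le_mul_of_nonneg_right hg hs
  have h1 := pow_le_pow_left₀ ((tr_isMT hK hL hW).nonneg hu0) h0 2
  rwa [mul_pow, Real.sq_sqrt hu0] at h1

lemma tr_small {u : ℝ} (hu0 : 0 ≤ u) (hu : u ≤ 4) : tr K L W u ^ 2 ≤ u := by
  have hW0 := W_pos hK hL hW
  have hs := Real.sqrt_nonneg u
  have h2 := Real.mul_self_sqrt hu0
  have hs2 : √u ≤ 2 := by
    rw [Real.sqrt_le_left (by norm_num)]
    norm_num
    exact hu
  have hu2 : u / 2 ≤ √u := by nlinarith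
  have hk : K / √W ≤ 1 / 2 := by
    rw [div_le_iff₀ (Real.sqrt_pos.mpr hW0)]
    have : 2 * K ≤ √W := Real.le_sqrt_of_sq_le (by nlinarith)
    linarith
  have h0 : tr K L W u ≤ √u := by
    refine max_le le_rfl (max_le ((min_le_left _ _).trans (by linarith))
      ((min_le_left _ _).trans ?_))
    nlinarith
  have h1 := pow_le_pow_left₀ ((tr_isMT hK hL hW).nonneg hu0) h0 2
  rwa [Real.sq_sqrt hu0] at h1

end Tr

/-! ### The metric -/

lemma mink {a b a1 a2 b1 b2 : ℝ} (ha0 : 0 ≤ a) (hb0 : 0 ≤ b) (ha : a ≤ a1 + a2)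
    (hb : b ≤ b1 + b2) : √(a ^ 2 + b ^ 2) ≤ √(a1 ^ 2 + b1 ^ 2) + √(a2 ^ 2 + b2 ^ 2) := by
  have h1 : (0 : ℝ) ≤ a1 ^ 2 + b1 ^ 2 := by positivity
  have h2 : (0 : ℝ) ≤ a2 ^ 2 + b2 ^ 2 := by positivity
  have s1 := Real.sq_sqrt h1
  have s2 := Real.sq_sqrt h2
  have n1 := Real.sqrt_nonneg (a1 ^ 2 + b1 ^ 2)
  have n2 := Real.sqrt_nonneg (a2 ^ 2 + b2 ^ 2)
  rw [Real.sqrt_le_left (by positivity)]
  have h3 : a1 * a2 + b1 * b2 ≤ √(a1 ^ 2 + b1 ^ 2) * √(a2 ^ 2 + b2 ^ 2) := by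
    refine le_of_sq_le_sq ?_ (by positivity)
    rw [mul_pow, s1, s2]
    nlinarith [sq_nonneg (a1 * b2 - a2 * b1)]
  have h4 : a ^ 2 ≤ (a1 + a2) ^ 2 := pow_le_pow_left₀ ha0 ha 2
  have h5 : b ^ 2 ≤ (b1 + b2) ^ 2 := pow_le_pow_left₀ hb0 hb 2
  nlinarith

variable {I : Type} [Fintype I] [DecidableEq I] {N : Set (I → ZMod 2)} {η : ℝ}

/-- The metric `√(α (hd x x')² + β (hd y y')²)`. -/
noncomputable def m2 {α β : ℝ → ℝ} (hα : IsMT α) (hβ : IsMT β) : MetricSpace (Sp I N η) where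
  dist p q := √(α (hd p.x q.x) ^ 2 + β (hd p.y q.y) ^ 2)
  dist_self p := by
    show √(α (hd p.x p.x) ^ 2 + β (hd p.y p.y) ^ 2) = 0
    rw [hd_self, hd_self, hα.zero, hβ.zero]
    simp
  dist_comm p q := by
    show √(α (hd p.x q.x) ^ 2 + β (hd p.y q.y) ^ 2) = √(α (hd q.x p.x) ^ 2 + β (hd q.y p.y) ^ 2)
    rw [hd_comm, hd_comm p.y]
  dist_triangle p q r := by
    show √(α (hd p.x r.x) ^ 2 + β (hd p.y r.y) ^ 2) ≤ √(α (hd p.x q.x) ^ 2 + β (hd p.y q.y) ^ 2) +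
      √(α (hd q.x r.x) ^ 2 + β (hd q.y r.y) ^ 2)
    have h1 := (hα.mono _ _ (hd_tri p.x q.x r.x)).trans (hα.sub _ _ (hd_nonneg _ _) (hd_nonneg _ _))
    have h2 := (hβ.mono _ _ (hd_tri p.y q.y r.y)).trans (hβ.sub _ _ (hd_nonneg _ _) (hd_nonneg _ _))
    exact mink (hα.nonneg (hd_nonneg _ _)) (hβ.nonneg (hd_nonneg _ _)) h1 h2
  eq_of_dist_eq_zero {p q} h := by
    change √(α (hd p.x q.x) ^ 2 + β (hd p.y q.y) ^ 2) = 0 at h
    have h0 : (0 : ℝ) ≤ α (hd p.x q.x) ^ 2 + β (hd p.y q.y) ^ 2 := by positivity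
    rw [Real.sqrt_eq_zero h0] at h
    have h1 := sq_nonneg (α (hd p.x q.x))
    have h2 := sq_nonneg (β (hd p.y q.y))
    refine Sp.ext' ?_ ?_
    · by_contra hne
      have := hα.pos _ (one_le_hd hne)
      nlinarith
    · by_contra hne
      have := hβ.pos _ (one_le_hd hne)
      nlinarith

/-- The numerical comparison behind the embeddings of the pieces. -/
lemma piece {K L η u v W : ℝ} (hK : 1 ≤ K) (hL : 1 ≤ L) (hη : W = 202 * η)
    (hWK : 4 * K ^ 2 ≤ W) (hWL : 4 * L ^ 2 ≤ W)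
    (hu : u = 0 ∨ 4 * L ^ 2 ≤ u) (hu0 : 0 ≤ u) (hv0 : 0 ≤ v) (hclose : v ≤ u + 2 * η) {E : ℝ}
    (hE : 0 ≤ E) (hE2 : E ^ 2 = (K * L) ^ 2 * u + K ^ 2 * v) :
    E ≤ K * √(tr L K W u ^ 2 + tr K L W v ^ 2) ∧
      √(tr L K W u ^ 2 + tr K L W v ^ 2) ≤ 101 / 100 * E := by
  have h1 : L ^ 2 * u ≤ tr L K W u ^ 2 := by
    rcases hu with h | h
    · rw [h, mul_zero]
      exact sq_nonneg _
    · exact tr_mid hL hK hWL h
  have h2 := tr_sqrt hK hL hWK hv0
  have h0 : (0 : ℝ) ≤ tr L K W u ^ 2 + tr K L W v ^ 2 := by positivity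
  have hsq := Real.sq_sqrt h0
  refine ⟨?_, ?_⟩
  · refine le_of_sq_le_sq ?_ (by positivity)
    rw [mul_pow, hsq, hE2]
    nlinarith [sq_nonneg K]
  · refine le_of_sq_le_sq ?_ (by positivity)
    rw [mul_pow, hsq, hE2]
    have a1 := tr_le hL hK hWL hu0
    rw [gg_sq hL hK] at a1
    have k1 : 0 ≤ K ^ 2 - 1 := by nlinarith
    have l1 : 0 ≤ L ^ 2 - 1 := by nlinarith
    have kl := mul_nonneg k1 l1
    have ku := mul_nonneg k1 hu0
    have lu := mul_nonneg l1 hu0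
    have klu := mul_nonneg kl hu0
    have kv := mul_nonneg (sq_nonneg K) hv0
    rcases le_total v W with h | h
    · have a2 := tr_le_mid_sq hK hL hWK hv0 h
      nlinarith
    · have a2 := tr_le hK hL hWK hv0
      rw [gg_sq hK hL] at a2
      have h3 : v ≤ 101 / 100 * u := by linarith
      have h4 := mul_le_mul_of_nonneg_left h3 kl
      nlinarith

end Pool.Agent.Y507.Un
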